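import Pool.Agent.helper68.QZ.Spec

/-!
# Row qz:TY (MP_5a4a8e_nt): Taylor series of `ζ'/ζ` about `s + lam`, at `s`
-/

set_option autoImplicit false

namespace Pool.Agent.QZ

open N1f72dd46 Filter MeasureTheory Complex Metric Pool.Agent.helper6.LD
open scoped ComplexConjugate

/-- `logDeriv ζ` is differentiable where `ζ` has neither a zero nor the pole -/
theorem TY_diff (z : ℂ) (h1 : z ≠ 1) (h0 : riemannZeta z ≠ 0) :
    DifferentiableAt ℂ (logDeriv riemannZeta) z := by
  have hd : DifferentiableOn ℂ riemannZeta ({1}ᶜ : Set ℂ) := fun w hw =>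
    (differentiableAt_riemannZeta (by simpa using hw)).differentiableWithinAt
  have ho : IsOpen ({1}ᶜ : Set ℂ) := isOpen_compl_singleton
  have hz : z ∈ ({1}ᶜ : Set ℂ) := by simpa using h1
  have h2 : DifferentiableAt ℂ (deriv riemannZeta) z := (hd.deriv ho).differentiableAt (ho.mem_nhds hz)
  have h3 : DifferentiableAt ℂ riemannZeta z := differentiableAt_riemannZeta h1
  exact h2.div h3 h0

theorem TY : TY_stmt := by
  intro θ d lam hθ hθ1 hZF hd hd1 hlam
  obtain ⟨T1, hT1⟩ := hZF (d / 4) (by linarith)
  refine ⟨max T1 1 + lam + 2, ?_⟩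
  intro σ t hσ hσ2 ht
  set s : ℂ := (σ : ℂ) + t * I with hs
  have hsre : s.re = σ := by simp [hs]
  have hsim : s.im = t := by simp [hs]
  have hm1 : T1 ≤ max T1 1 := le_max_left _ _
  have hm2 : (1 : ℝ) ≤ max T1 1 := le_max_right _ _
  have hf : DifferentiableOn ℂ (logDeriv riemannZeta) (ball (s + lam) (lam + d / 2)) := by
    intro z hz
    rw [mem_ball_iff_norm] at hz
    have h1 := Complex.abs_re_le_norm (z - (s + lam))
    have h2 := Complex.abs_im_le_norm (z - (s + lam))
    have hre : (z - (s + lam)).re = z.re - σ - lam := by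
      rw [Complex.sub_re, Complex.add_re, hsre, Complex.ofReal_re]; ring
    have him : (z - (s + lam)).im = z.im - t := by
      rw [Complex.sub_im, Complex.add_im, hsim, Complex.ofReal_im]; ring
    rw [hre] at h1
    rw [him] at h2
    have h3 : σ - d / 2 < z.re := by
      have := (abs_le.1 h1).1
      linarith
    have h4 : max T1 1 < z.im := by
      have := (abs_le.1 h2).1
      linarith
    have h5 : z ≠ 1 := by
      intro h
      rw [h] at h4
      simp only [Complex.one_im] at h4
      linarith
    have h6 : riemannZeta z ≠ 0 := by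
      intro h
      have := hT1 z h (by linarith)
      linarith
    exact (TY_diff z h5 h6).differentiableWithinAt
  have hz : s ∈ ball (s + lam) (lam + d / 2) := by
    rw [mem_ball_iff_norm]
    have h1 : s - (s + (lam : ℂ)) = -(lam : ℂ) := by ring
    rw [h1, norm_neg, Complex.norm_real, Real.norm_eq_abs, abs_of_pos (by linarith)]
    linarith
  have h := Complex.hasSum_taylorSeries_on_ball hf hz
  have he : (fun k : ℕ => ak k (s + lam) * (-(lam : ℂ)) ^ k) =
      fun n : ℕ => ((n.factorial : ℂ))⁻¹ • (s - (s + lam)) ^ n • iteratedDeriv n (logDeriv riemannZeta) (s + lam) := by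
    funext n
    have h1 : s - (s + (lam : ℂ)) = -(lam : ℂ) := by ring
    rw [h1, smul_eq_mul, smul_eq_mul, ak, div_eq_mul_inv]
    ring
  rw [he]
  exact h

end Pool.Agent.QZ
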